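import Pool.Agent.V11308.Blocks

/-!
# MP_5eb62f: `a(p^r) ≡ a(p^(r-1)) (mod p^(3r+3))` for primes `p ≥ 5` and `r ≥ 2`, where
`a(n) = ∑_{j<n} C(n,j) C(n-1,j) C(n+j-1,j)^2`.
-/

namespace Pool.Agent.Results.MP_5eb62f_nt.PrimePowers

open Finset Pool.Agent.V11308

/-- the summand -/
def T (n j : ℕ) : ℕ := n.choose j * (n - 1).choose j * ((n + j - 1).choose j) ^ 2

/-- `a(0) = 1` and `a(n) = ∑_{j=0}^{n-1} C(n,j) C(n-1,j) C(n+j-1,j)^2` for `n ≥ 1`. -/
def a (n : ℕ) : ℤ :=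
  if n = 0 then 1 else
    ∑ j ∈ Finset.range n, (n.choose j : ℤ) * ((n - 1).choose j : ℤ) * ((n + j - 1).choose j : ℤ) ^ 2

/-- `W n m = C(n-1,m) C(n+m,m) = ± ∏_{i ≤ m} (1 - n^2/i^2)`. -/
def W (n m : ℕ) : ℕ := (n - 1).choose m * (n + m).choose m

variable {p : ℕ} [hp : Fact p.Prime]

lemma W_succ (n m : ℕ) (h : m + 1 ≤ n) :
    ((W n (m + 1) : ℕ) : ℤ_[p]) * ((m : ℤ_[p]) + 1) ^ 2 =
      ((n : ℤ_[p]) ^ 2 - ((m : ℤ_[p]) + 1) ^ 2) * (W n m : ℕ) := by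
  have h1 := Nat.choose_succ_right_eq (n - 1) m
  have h2 := Nat.add_one_mul_choose_eq (n + m) m
  have h1' : (((n - 1).choose (m + 1) : ℕ) : ℤ_[p]) * ((m : ℤ_[p]) + 1) =
      ((n - 1).choose m : ℕ) * (n - 1 - m) := by
    have := congrArg (Nat.cast : ℕ → ℤ_[p]) h1
    push_cast at this
    rw [this, Nat.cast_sub (by omega), Nat.cast_sub (by omega)]
    push_cast; ring
  have h2' : (((n + (m + 1)).choose (m + 1) : ℕ) : ℤ_[p]) * ((m : ℤ_[p]) + 1) =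
      (n + m + 1) * ((n + m).choose m : ℕ) := by
    have := congrArg (Nat.cast : ℕ → ℤ_[p]) h2
    push_cast at this
    rw [show n + (m + 1) = n + m + 1 by ring, ← this]
  unfold W
  push_cast
  linear_combination (((n + (m + 1)).choose (m + 1) : ℕ) : ℤ_[p]) * ((m : ℤ_[p]) + 1) * h1' +
    ((n - 1).choose m : ℕ) * (n - 1 - m) * h2'

lemma T_mul (n j : ℕ) (h1 : 1 ≤ j) (h2 : j ≤ n) :
    ((T n j : ℕ) : ℤ_[p]) * (j : ℤ_[p]) ^ 4 =
      (n : ℤ_[p]) ^ 3 * (n - j) * ((W n (j - 1) : ℕ) : ℤ_[p]) ^ 2 := by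
  obtain ⟨k, rfl⟩ : ∃ k, j = k + 1 := ⟨j - 1, by omega⟩
  obtain ⟨m, rfl⟩ : ∃ m, n = m + 1 := ⟨n - 1, by omega⟩
  have e1 : (((m + 1).choose (k + 1) : ℕ) : ℤ_[p]) * (k + 1) = (m + 1) * (m.choose k : ℕ) := by
    have := congrArg (Nat.cast : ℕ → ℤ_[p]) (Nat.add_one_mul_choose_eq m k)
    push_cast at this
    rw [this]
  have e2 : ((m.choose (k + 1) : ℕ) : ℤ_[p]) * (k + 1) = (m.choose k : ℕ) * (m - k) := by
    have := congrArg (Nat.cast : ℕ → ℤ_[p]) (Nat.choose_succ_right_eq m k)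
    push_cast at this
    rw [this, Nat.cast_sub (by omega)]
  have e3 : (((m + k + 1).choose (k + 1) : ℕ) : ℤ_[p]) * (k + 1) =
      (m + 1) * ((m + 1 + k).choose k : ℕ) := by
    have h3 := congrArg (Nat.cast : ℕ → ℤ_[p]) (Nat.add_one_mul_choose_eq (m + k) k)
    have h4 := congrArg (Nat.cast : ℕ → ℤ_[p]) (Nat.choose_mul_succ_eq (m + k) k)
    rw [show m + k + 1 - k = m + 1 by omega] at h4
    push_cast at h3 h4
    rw [show m + 1 + k = m + k + 1 by ring]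
    linear_combination -h3 + h4
  unfold T W
  rw [show m + 1 + (k + 1) - 1 = m + k + 1 by omega, show m + 1 - 1 = m by omega,
    show k + 1 - 1 = k by omega]
  push_cast
  generalize (((m + 1).choose (k + 1) : ℕ) : ℤ_[p]) = x1 at *
  generalize ((m.choose (k + 1) : ℕ) : ℤ_[p]) = x2 at *
  generalize (((m + k + 1).choose (k + 1) : ℕ) : ℤ_[p]) = x3 at *
  generalize (((m + 1 + k).choose k : ℕ) : ℤ_[p]) = x4 at *
  generalize ((m.choose k : ℕ) : ℤ_[p]) = x5 at *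
  calc x1 * x2 * x3 ^ 2 * ((k : ℤ_[p]) + 1) ^ 4
      = (x1 * (k + 1)) * (x2 * (k + 1)) * (x3 * (k + 1)) ^ 2 := by ring
    _ = ((m + 1) * x5) * (x5 * (m - k)) * ((m + 1) * x4) ^ 2 := by rw [e1, e2, e3]
    _ = _ := by ring

/-- the product of the factors prime to `p` -/
noncomputable def B (p : ℕ) [Fact p.Prime] (n m : ℕ) : ℤ_[p] :=
  ∏ i ∈ Finset.range (m + 1), if p ∣ i then 1 else ((n : ℤ_[p]) ^ 2 * t p i ^ 2 - 1)

lemma W_eq (n m : ℕ) (h : m < p * n) :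
    ((W (p * n) m : ℕ) : ℤ_[p]) = ((W n (m / p) : ℕ) : ℤ_[p]) * B p (p * n) m := by
  have hp0 : 0 < p := hp.out.pos
  induction m with
  | zero => simp [W, B]
  | succ m ih =>
    have ih := ih (by omega)
    have hW := W_succ (p := p) (p * n) m (by omega)
    have hB : B p (p * n) (m + 1) = B p (p * n) m *
        (if p ∣ m + 1 then 1 else (((p * n : ℕ) : ℤ_[p]) ^ 2 * t p (m + 1) ^ 2 - 1)) := by
      unfold B
      rw [Finset.prod_range_succ]
    by_cases hd : p ∣ m + 1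
    · rw [if_pos hd, mul_one] at hB
      obtain ⟨q, hq⟩ := hd
      have hq1 : 1 ≤ q := by
        rcases Nat.eq_zero_or_pos q with h0 | h0
        · rw [h0] at hq; omega
        · exact h0
      have hqn : q ≤ n := by
        by_contra hcon
        have : p * n < p * q := Nat.mul_lt_mul_of_pos_left (by omega) hp0
        omega
      have d1 : (m + 1) / p = q := by rw [hq]; exact Nat.mul_div_cancel_left _ hp0
      have d2 : m / p = q - 1 := by
        have : m = p * (q - 1) + (p - 1) := by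
          have : p * q = p * (q - 1) + p := by
            conv_lhs => rw [show q = q - 1 + 1 by omega]
            ring
          omega
        rw [this, Nat.mul_add_div hp0, Nat.div_eq_of_lt (by omega), add_zero]
      rw [d2] at ih
      rw [d1, hB]
      have hW2 := W_succ (p := p) n (q - 1) (by omega)
      rw [show q - 1 + 1 = q by omega] at hW2
      have hqc : ((q - 1 : ℕ) : ℤ_[p]) + 1 = q := by
        rw [Nat.cast_sub hq1]; push_cast; ring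
      rw [hqc] at hW2
      have hmc : (m : ℤ_[p]) + 1 = p * q := by
        have := congrArg (Nat.cast : ℕ → ℤ_[p]) hq
        push_cast at this
        exact this
      rw [hmc, ih] at hW
      push_cast at hW
      have hne : ((p : ℤ_[p]) * q) ^ 2 ≠ 0 := by
        apply pow_ne_zero
        apply mul_ne_zero
        · exact_mod_cast hp0.ne'
        · exact_mod_cast (by omega : q ≠ 0)
      apply mul_right_cancel₀ hne
      linear_combination hW - p ^ 2 * B p (p * n) m * hW2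
    · rw [if_neg hd] at hB
      have d1 : (m + 1) / p = m / p := by
        rw [Nat.succ_div, if_neg hd, add_zero]
      rw [d1, hB, ← mul_assoc, ← ih]
      have ht := mul_t (p := p) hd
      push_cast at ht
      have ht2 : ((m : ℤ_[p]) + 1) ^ 2 * t p (m + 1) ^ 2 = 1 := by
        rw [← mul_pow, ht, one_pow]
      linear_combination (t p (m + 1) ^ 2) * hW + (-((W (p * n) (m + 1) : ℕ) : ℤ_[p]) -
        ((W (p * n) m : ℕ) : ℤ_[p])) * ht2

lemma B_sq (n m : ℕ) :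
    ∃ e : ℤ_[p], B p n m ^ 2 = 1 - 2 * (n : ℤ_[p]) ^ 2 * S p 2 (m + 1) + (n : ℤ_[p]) ^ 4 * e := by
  induction m with
  | zero =>
    refine ⟨0, ?_⟩
    simp [B, S, t_eq_zero]
  | succ m ih =>
    obtain ⟨e, he⟩ := ih
    have hB : B p n (m + 1) ^ 2 = B p n m ^ 2 * (1 - 2 * (n : ℤ_[p]) ^ 2 * t p (m + 1) ^ 2 +
        (n : ℤ_[p]) ^ 4 * t p (m + 1) ^ 4) := by
      unfold B
      rw [Finset.prod_range_succ _ (m + 1), mul_pow]
      congr 1
      split_ifs with h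
      · rw [t_eq_zero h]; ring
      · ring
    have hS : S p 2 (m + 1 + 1) = S p 2 (m + 1) + t p (m + 1) ^ 2 := by
      unfold S
      rw [Finset.sum_range_succ _ (m + 1)]
    rw [hB, he, hS]
    generalize S p 2 (m + 1) = s
    generalize t p (m + 1) = u
    refine ⟨e * (1 - 2 * (n : ℤ_[p]) ^ 2 * u ^ 2 + (n : ℤ_[p]) ^ 4 * u ^ 4) + 4 * s * u ^ 2 +
      u ^ 4 * (1 - 2 * (n : ℤ_[p]) ^ 2 * s), ?_⟩
    ring

/-- `W(p^k, m)^2 ≡ 1 mod p^2` for `m < p^k`. -/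
lemma W_sq (k : ℕ) : ∀ m < p ^ k, ∃ e : ℤ_[p],
    ((W (p ^ k) m : ℕ) : ℤ_[p]) ^ 2 = 1 + (p : ℤ_[p]) ^ 2 * e := by
  induction k with
  | zero =>
    intro m hm
    rw [pow_zero] at hm
    obtain rfl : m = 0 := by omega
    exact ⟨0, by simp [W]⟩
  | succ k ih =>
    intro m hm
    rw [pow_succ, mul_comm] at hm
    have h1 := W_eq (p := p) (p ^ k) m hm
    obtain ⟨e, he⟩ := ih (m / p) (Nat.div_lt_of_lt_mul hm)
    obtain ⟨f, hf⟩ := B_sq (p := p) (p * p ^ k) m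
    rw [pow_succ p k, mul_comm (p ^ k) p, h1, mul_pow, he, hf]
    push_cast
    generalize S p 2 (m + 1) = s
    generalize ((p : ℤ_[p]) ^ k) = c
    refine ⟨e * (1 - 2 * (p * c) ^ 2 * s + (p * c) ^ 4 * f) - 2 * c ^ 2 * s + p ^ 2 * c ^ 4 * f, ?_⟩
    ring

/-! ## The indices prime to `p` -/

lemma t_refl (n j : ℕ) (hn : p ∣ n) (hj : j ≤ n) :
    ∃ e : ℤ_[p], t p (n - j) = - t p j - n * t p j ^ 2 + (n : ℤ_[p]) ^ 2 * e := by
  by_cases h : p ∣ j
  · have h2 : p ∣ n - j := Nat.dvd_sub hn h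
    exact ⟨0, by rw [t_eq_zero h, t_eq_zero h2]; ring⟩
  · have h2 : ¬ p ∣ n - j := by
      intro h3
      apply h
      have := Nat.dvd_sub hn h3
      rwa [Nat.sub_sub_self hj] at this
    have e1 := mul_t h
    have e2 := mul_t h2
    have hu2 : IsUnit (((n - j : ℕ) : ℤ_[p])) := isUnit_cast h2
    rw [Nat.cast_sub hj] at e2 hu2
    refine ⟨t p j ^ 2 * t p (n - j), ?_⟩
    apply hu2.mul_left_cancel
    generalize t p (n - j) = T at *
    generalize t p j = u at *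
    linear_combination (1 - (n : ℤ_[p]) ^ 2 * u ^ 2) * e2 + (-1 - n * u) * e1

/-- `p^3 ∣ S_3(p^r)` for `r ≥ 2`. -/
lemma cube_dvd_S3 (r : ℕ) (hr : 2 ≤ r) (hp5 : 5 ≤ p) : (p : ℤ_[p]) ^ 3 ∣ S p 3 (p ^ r) := by
  have hn : p ∣ p ^ r := dvd_pow_self p (by omega)
  have h1 : S p 3 (p ^ r) = ∑ j ∈ Finset.range (p ^ r), t p (p ^ r - j) ^ 3 := by
    have h2 := Finset.sum_range_reflect (fun i => t p (i + 1) ^ 3) (p ^ r)
    have h3 : ∑ j ∈ Finset.range (p ^ r), t p (p ^ r - 1 - j + 1) ^ 3 =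
        ∑ j ∈ Finset.range (p ^ r), t p (p ^ r - j) ^ 3 := by
      apply Finset.sum_congr rfl
      intro j hj
      rw [Finset.mem_range] at hj
      congr 2
      omega
    rw [← h3, h2]
    have h4 := Finset.sum_range_succ' (fun i => t p i ^ 3) (p ^ r)
    rw [Finset.sum_range_succ] at h4
    simp only [t_eq_zero hn, t_eq_zero (dvd_zero p)] at h4
    unfold S
    simpa using h4
  have hT : ∀ j ∈ Finset.range (p ^ r), ∃ e : ℤ_[p], t p (p ^ r - j) ^ 3 =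
      - t p j ^ 3 - 3 * p ^ r * t p j ^ 4 + (p : ℤ_[p]) ^ 3 * e := by
    intro j hj
    rw [Finset.mem_range] at hj
    obtain ⟨e, he⟩ := t_refl (p := p) (p ^ r) j hn hj.le
    have h3 : (p : ℤ_[p]) ^ 3 ∣ t p (p ^ r - j) ^ 3 - (- t p j - (p ^ r : ℕ) * t p j ^ 2) ^ 3 := by
      refine dvd_trans ?_ (sub_dvd_pow_sub_pow _ _ 3)
      rw [he]
      push_cast
      rw [← pow_mul]
      refine dvd_trans (pow_dvd_pow _ (by omega : 3 ≤ r * 2)) ⟨e, by ring⟩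
    obtain ⟨c, hc⟩ := h3
    push_cast at hc
    have h4 : (p : ℤ_[p]) ^ r * p ^ r = p ^ 3 * p ^ (r + r - 3) := by
      rw [← pow_add, ← pow_add]; congr 1; omega
    refine ⟨c - (3 * t p j ^ 5 + p ^ r * t p j ^ 6) * p ^ (r + r - 3), ?_⟩
    linear_combination hc - (3 * t p j ^ 5 + p ^ r * t p j ^ 6) * h4
  choose! e he using hT
  have h5 : S p 3 (p ^ r) = -S p 3 (p ^ r) - 3 * p ^ r * S p 4 (p ^ r) +
      p ^ 3 * ∑ j ∈ Finset.range (p ^ r), e j := by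
    conv_lhs => rw [h1]
    rw [Finset.sum_congr rfl he]
    unfold S
    rw [Finset.sum_add_distrib, Finset.sum_sub_distrib, Finset.sum_neg_distrib, ← Finset.mul_sum,
      ← Finset.mul_sum]
  obtain ⟨c, hc⟩ := dvd_S_of_two_le (p := p) 4 r hr
  have h6 : IsUnit ((2 : ℕ) : ℤ_[p]) := isUnit_cast (by
    intro h; have := Nat.le_of_dvd (by norm_num) h; omega)
  have h7 : (p : ℤ_[p]) ^ 3 ∣ ((2 : ℕ) : ℤ_[p]) * S p 3 (p ^ r) := by
    have h8 : (p : ℤ_[p]) ^ r = p ^ 2 * p ^ (r - 2) := by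
      rw [← pow_add]; congr 1; omega
    refine ⟨-3 * p ^ (r - 2) * c + ∑ j ∈ Finset.range (p ^ r), e j, ?_⟩
    rw [hc] at h5
    push_cast
    rw [h8] at h5
    linear_combination h5
  exact (h6.dvd_mul_left).1 h7

/-- the contribution of the indices prime to `p` -/
lemma part_prime (r : ℕ) (hr : 2 ≤ r) (hp5 : 5 ≤ p) :
    (p : ℤ_[p]) ^ (3 * r + 3) ∣
      ∑ j ∈ Finset.range (p ^ r), if p ∣ j then 0 else ((T (p ^ r) j : ℕ) : ℤ_[p]) := by
  have hp0 : 0 < p := hp.out.pos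
  obtain ⟨k, rfl⟩ : ∃ k, r = k + 1 := ⟨r - 1, by omega⟩
  have hpk : p ^ (k + 1) = p * p ^ k := by ring
  choose! Q hQ using W_sq (p := p) k
  have hF : ∀ j ∈ Finset.range (p ^ (k + 1)), ∃ e : ℤ_[p],
      (if p ∣ j then 0 else ((T (p ^ (k + 1)) j : ℕ) : ℤ_[p])) =
      -(p : ℤ_[p]) ^ (3 * (k + 1)) * ((t p j ^ 3 - p ^ (k + 1) * t p j ^ 4) +
        p ^ 2 * (Q (j / p) * t p j ^ 3) + p ^ 3 * e) := by
    intro j hj
    rw [Finset.mem_range] at hj
    by_cases hd : p ∣ j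
    · rw [if_pos hd, t_eq_zero hd]
      exact ⟨0, by ring⟩
    · rw [if_neg hd]
      have hj1 : 1 ≤ j := by
        rcases Nat.eq_zero_or_pos j with h0 | h0
        · exact absurd (h0 ▸ dvd_zero p) hd
        · exact h0
      have hTm := T_mul (p := p) (p ^ (k + 1)) j hj1 hj.le
      have hdiv : (j - 1) / p = j / p := by
        have h0 : (j - 1 + 1) / p = (j - 1) / p := by
          rw [Nat.succ_div, if_neg (by rwa [show j - 1 + 1 = j by omega]), add_zero]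
        rw [show j - 1 + 1 = j by omega] at h0
        exact h0.symm
      have hWe := W_eq (p := p) (p ^ k) (j - 1) (by rw [← hpk]; omega)
      rw [hdiv, ← hpk] at hWe
      have hlt : j / p < p ^ k := Nat.div_lt_of_lt_mul (by rw [← hpk]; exact hj)
      have hQj := hQ (j / p) hlt
      obtain ⟨f, hf⟩ := B_sq (p := p) (p ^ (k + 1)) (j - 1)
      rw [show j - 1 + 1 = j by omega] at hf
      have ht := mul_t hd
      have ht4 : (j : ℤ_[p]) ^ 4 * t p j ^ 4 = 1 := by rw [← mul_pow, ht, one_pow]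
      have hn2 : ((p : ℤ_[p]) ^ (k + 1)) ^ 2 = p ^ 3 * p ^ (2 * (k + 1) - 3) := by
        rw [← pow_mul, ← pow_add]; congr 1; omega
      rw [hWe, mul_pow, hQj, hf] at hTm
      push_cast at hTm
      generalize S p 2 j = s at *
      generalize t p j = u at *
      generalize Q (j / p) = x at *
      have h3 : (p : ℤ_[p]) ^ (3 * (k + 1)) = (p ^ (k + 1)) ^ 3 := by
        rw [← pow_mul]; congr 1; ring
      rw [h3]
      have h4 : (p : ℤ_[p]) ^ (k + 1) = p ^ 1 * p ^ k := by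
        rw [← pow_add]; congr 1; omega
      -- `T = T j^4 u^4`
      have h5 : ((T (p ^ (k + 1)) j : ℕ) : ℤ_[p]) =
          -((p : ℤ_[p]) ^ (k + 1)) ^ 3 * ((u ^ 3 - p ^ (k + 1) * u ^ 4) * (1 + p ^ 2 * x) *
            (1 + (p ^ (k + 1)) ^ 2 * (-2 * s + (p ^ (k + 1)) ^ 2 * f))) := by
        have h6 : (j : ℤ_[p]) * u ^ 4 = u ^ 3 := by linear_combination u ^ 3 * ht
        linear_combination (-((T (p ^ (k + 1)) j : ℕ) : ℤ_[p])) * ht4 + u ^ 4 * hTm -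
          ((p : ℤ_[p]) ^ (k + 1)) ^ 3 * (1 + p ^ 2 * x) *
            (1 + (p ^ (k + 1)) ^ 2 * (-2 * s + (p ^ (k + 1)) ^ 2 * f)) * h6
      refine ⟨-p ^ k * u ^ 4 * x + (u ^ 3 - p ^ (k + 1) * u ^ 4) * (1 + p ^ 2 * x) *
        p ^ (2 * (k + 1) - 3) * (-2 * s + (p ^ (k + 1)) ^ 2 * f), ?_⟩
      rw [h5]
      linear_combination (-((p : ℤ_[p]) ^ (k + 1)) ^ 3) * ((u ^ 3 - p ^ (k + 1) * u ^ 4) *
        (1 + p ^ 2 * x) * (-2 * s + (p ^ (k + 1)) ^ 2 * f)) * hn2 +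
        ((p : ℤ_[p]) ^ (k + 1)) ^ 3 * p ^ 2 * x * u ^ 4 * h4
  choose! e he using hF
  rw [Finset.sum_congr rfl he, ← Finset.mul_sum, Finset.sum_add_distrib, Finset.sum_add_distrib,
    Finset.sum_sub_distrib, ← Finset.mul_sum, ← Finset.mul_sum, ← Finset.mul_sum]
  rw [show 3 * (k + 1) + 3 = 3 * (k + 1) + 3 by ring, pow_add, neg_mul, dvd_neg]
  apply mul_dvd_mul_left
  apply dvd_add
  · apply dvd_add
    · apply dvd_sub
      · exact cube_dvd_S3 (k + 1) hr hp5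
      · obtain ⟨c, hc⟩ := dvd_S_of_two_le (p := p) 4 (k + 1) hr
        unfold S at hc
        rw [hc]
        refine ⟨p ^ (k - 1) * c, ?_⟩
        have : (p : ℤ_[p]) ^ (k + 1) * p = p ^ 3 * p ^ (k - 1) := by
          rw [← pow_succ, ← pow_add]; congr 1; omega
        linear_combination c * this
    · -- blocks
      have h3 : (p : ℤ_[p]) ∣ ∑ j ∈ Finset.range (p ^ (k + 1)), Q (j / p) * t p j ^ 3 := by
        rw [hpk, sum_range_mul']
        apply Finset.dvd_sum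
        intro b _
        have h4 : ∀ i ∈ Finset.range p, ∃ e : ℤ_[p], Q ((i + p * b) / p) * t p (i + p * b) ^ 3 =
            Q b * t p i ^ 3 + p * e := by
          intro i hi
          rw [Finset.mem_range] at hi
          obtain ⟨e, he⟩ := t_shift_pow (p := p) i p b 3 dvd_rfl
          have : (i + p * b) / p = b := by
            rw [Nat.add_mul_div_left _ _ hp0, Nat.div_eq_of_lt hi, zero_add]
          rw [this, he]
          exact ⟨Q b * e, by ring⟩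
        choose! g hg using h4
        rw [Finset.sum_congr rfl hg, Finset.sum_add_distrib, ← Finset.mul_sum, ← Finset.mul_sum]
        apply dvd_add _ (dvd_mul_right _ _)
        apply Dvd.dvd.mul_left
        have := dvd_S_odd (p := p) 3 1 (by norm_num) (by decide) (by omega)
        rw [pow_one, pow_one] at this
        exact this
      obtain ⟨c, hc⟩ := h3
      rw [hc]
      exact ⟨c, by ring⟩
  · exact dvd_mul_right _ _

/-! ## The indices divisible by `p` -/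

lemma T_p (k b : ℕ) (h1 : 1 ≤ b) (h2 : b < p ^ k) :
    ((T (p ^ (k + 1)) (p * b) : ℕ) : ℤ_[p]) =
      (T (p ^ k) b : ℕ) * B p (p ^ (k + 1)) (p * b - 1) ^ 2 := by
  have hp0 : 0 < p := hp.out.pos
  have hpk : p ^ (k + 1) = p * p ^ k := by ring
  have hlt : p * b < p * p ^ k := Nat.mul_lt_mul_of_pos_left h2 hp0
  have hpb : 1 ≤ p * b := Nat.mul_pos hp0 h1
  have e1 := T_mul (p := p) (p ^ (k + 1)) (p * b) hpb (by rw [hpk]; exact hlt.le)
  have e2 := T_mul (p := p) (p ^ k) b h1 h2.le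
  have e3 := W_eq (p := p) (p ^ k) (p * b - 1) (by omega)
  have hd : (p * b - 1) / p = b - 1 := by
    have : p * b - 1 = p * (b - 1) + (p - 1) := by
      have : p * b = p * (b - 1) + p := by
        conv_lhs => rw [show b = b - 1 + 1 by omega]
        ring
      omega
    rw [this, Nat.mul_add_div hp0, Nat.div_eq_of_lt (by omega), add_zero]
  rw [hd, ← hpk] at e3
  rw [e3] at e1
  have hne : ((p : ℤ_[p]) * b) ^ 4 ≠ 0 := by
    apply pow_ne_zero
    apply mul_ne_zero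
    · exact_mod_cast hp0.ne'
    · exact_mod_cast (by omega : b ≠ 0)
  apply mul_right_cancel₀ hne
  push_cast at e1 e2 ⊢
  generalize B p (p ^ (k + 1)) (p * b - 1) = x at *
  linear_combination e1 - p ^ 4 * x ^ 2 * e2

lemma T_val (e w c : ℕ) (hc : ¬ p ∣ c) (hlt : p ^ e * c < p ^ (w + e)) :
    ((T (p ^ (w + e)) (p ^ e * c) : ℕ) : ℤ_[p]) =
      p ^ (3 * w) * ((p ^ w - c) * ((W (p ^ (w + e)) (p ^ e * c - 1) : ℕ) : ℤ_[p]) ^ 2 * t p c ^ 4) := by
  have hp0 : 0 < p := hp.out.pos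
  have hc1 : 1 ≤ c := by
    rcases Nat.eq_zero_or_pos c with h0 | h0
    · exact absurd (h0 ▸ dvd_zero p) hc
    · exact h0
  have e1 := T_mul (p := p) (p ^ (w + e)) (p ^ e * c) (Nat.mul_pos (Nat.pow_pos hp0) hc1) hlt.le
  have ht := mul_t hc
  have ht4 : (c : ℤ_[p]) ^ 4 * t p c ^ 4 = 1 := by rw [← mul_pow, ht, one_pow]
  have hne : ((p : ℤ_[p]) ^ e) ^ 4 ≠ 0 := by
    apply pow_ne_zero
    apply pow_ne_zero
    exact_mod_cast hp0.ne'
  apply mul_right_cancel₀ hne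
  push_cast at e1
  generalize ((W (p ^ (w + e)) (p ^ e * c - 1) : ℕ) : ℤ_[p]) = x at *
  generalize ((T (p ^ (w + e)) (p ^ e * c) : ℕ) : ℤ_[p]) = y at *
  rw [pow_mul' (p : ℤ_[p]) 3 w]
  rw [pow_add] at e1
  generalize (p : ℤ_[p]) ^ w = P at *
  generalize (p : ℤ_[p]) ^ e = E at *
  generalize t p c = u at *
  linear_combination (-(y * E ^ 4)) * ht4 + u ^ 4 * e1

/-- `S_2(p^k c) ≡ c S_2(p^k) mod p^(k+1)`, `k ≥ 1`. -/
lemma S2_linear (k c : ℕ) (hk : 1 ≤ k) (hp5 : 5 ≤ p) :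
    ∃ e : ℤ_[p], S p 2 (p ^ k * c) = c * S p 2 (p ^ k) + (p : ℤ_[p]) ^ (k + 1) * e := by
  obtain ⟨h3, hh3⟩ : (p : ℤ_[p]) ∣ S p 3 (p ^ k) :=
    dvd_trans (dvd_pow_self _ (by omega)) (dvd_S_odd (p := p) 3 k (by omega) (by decide) (by omega))
  have h : ∀ b i : ℕ, ∃ e : ℤ_[p], t p (i + p ^ k * b) ^ 2 = t p i ^ 2 -
      2 * (p : ℤ_[p]) ^ k * b * t p i ^ 3 + (p : ℤ_[p]) ^ (k + 1) * e := by
    intro b i
    obtain ⟨e, he⟩ := t_shift (p := p) i (p ^ k) b (dvd_pow_self p (by omega))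
    push_cast at he
    have h2 : ((p : ℤ_[p]) ^ k) ^ 2 = p ^ (k + 1) * p ^ (k - 1) := by
      rw [← pow_mul, ← pow_add]; congr 1; omega
    refine ⟨p ^ (k - 1) * (b ^ 2 * t p i ^ 4 + 2 * e * (t p i - p ^ k * b * t p i ^ 2) +
      (p ^ k) ^ 2 * e ^ 2), ?_⟩
    rw [he]
    linear_combination (b ^ 2 * t p i ^ 4 + 2 * e * (t p i - p ^ k * b * t p i ^ 2) +
      (p ^ k) ^ 2 * e ^ 2) * h2
  choose e he using h
  refine ⟨-2 * (∑ b ∈ Finset.range c, (b : ℤ_[p])) * h3 +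
    ∑ b ∈ Finset.range c, ∑ i ∈ Finset.range (p ^ k), e b i, ?_⟩
  have h4 : S p 2 (p ^ k * c) = ∑ b ∈ Finset.range c, (S p 2 (p ^ k) -
      2 * (p : ℤ_[p]) ^ k * b * S p 3 (p ^ k) +
      (p : ℤ_[p]) ^ (k + 1) * ∑ i ∈ Finset.range (p ^ k), e b i) := by
    unfold S
    rw [sum_range_mul']
    apply Finset.sum_congr rfl
    intro b _
    simp only [he, Finset.sum_add_distrib, Finset.sum_sub_distrib, Finset.mul_sum]
  rw [h4, hh3, Finset.sum_add_distrib, Finset.sum_sub_distrib, Finset.sum_const, Finset.card_range,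
    nsmul_eq_mul, ← Finset.mul_sum]
  have h5 : ∑ b ∈ Finset.range c, 2 * (p : ℤ_[p]) ^ k * b * (p * h3) =
      2 * (p : ℤ_[p]) ^ (k + 1) * h3 * ∑ b ∈ Finset.range c, (b : ℤ_[p]) := by
    rw [Finset.mul_sum]
    apply Finset.sum_congr rfl
    intro b _
    ring
  rw [h5]
  ring

lemma pow_dvd_S2 (k c : ℕ) (hk : 1 ≤ k) (hp5 : 5 ≤ p) :
    (p : ℤ_[p]) ^ k ∣ S p 2 (p ^ k * c) := by
  obtain ⟨e, he⟩ := S2_linear (p := p) k c hk hp5
  rw [he]
  apply dvd_add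
  · exact Dvd.dvd.mul_left (dvd_S_two k (by omega) hp5) _
  · exact Dvd.dvd.mul_right (pow_dvd_pow _ (by omega)) _

/-- the difference for the index `b`, in general -/
lemma diff_small (e w c : ℕ) (hw : 2 ≤ w) (hc : ¬ p ∣ c) (hlt : p ^ e * c < p ^ (w + e))
    (hp5 : 5 ≤ p) :
    (p : ℤ_[p]) ^ (3 * (w + e + 1) + 3) ∣
      ((T (p ^ (w + e + 1)) (p * (p ^ e * c)) : ℕ) : ℤ_[p]) - (T (p ^ (w + e)) (p ^ e * c) : ℕ) := by
  have hp0 : 0 < p := hp.out.pos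
  have hc1 : 1 ≤ c := by
    rcases Nat.eq_zero_or_pos c with h0 | h0
    · exact absurd (h0 ▸ dvd_zero p) hc
    · exact h0
  have hb1 : 1 ≤ p ^ e * c := Nat.mul_pos (Nat.pow_pos hp0) hc1
  rw [T_p (w + e) (p ^ e * c) hb1 hlt, T_val e w c hc hlt]
  obtain ⟨f, hf⟩ := B_sq (p := p) (p ^ (w + e + 1)) (p * (p ^ e * c) - 1)
  rw [show p * (p ^ e * c) - 1 + 1 = p * (p ^ e * c) by
    have := Nat.mul_pos hp0 hb1; omega] at hf
  rw [show p * (p ^ e * c) = p ^ (e + 1) * c by ring] at hf ⊢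
  obtain ⟨s, hs⟩ := pow_dvd_S2 (p := p) (e + 1) c (by omega) hp5
  rw [hf, hs]
  push_cast
  have h1 : (p : ℤ_[p]) ^ (3 * (w + e + 1) + 3) ∣ p ^ (3 * w) * ((p ^ (w + e + 1)) ^ 2 * p ^ (e + 1)) := by
    rw [← pow_mul, ← pow_add, ← pow_add]
    exact pow_dvd_pow _ (by omega)
  have h2 : (p : ℤ_[p]) ^ (3 * (w + e + 1) + 3) ∣ p ^ (3 * w) * (p ^ (w + e + 1)) ^ 4 := by
    rw [← pow_mul, ← pow_add]
    exact pow_dvd_pow _ (by omega)
  obtain ⟨x, hx⟩ := h1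
  obtain ⟨y, hy⟩ := h2
  generalize ((W (p ^ (w + e)) (p ^ e * c - 1) : ℕ) : ℤ_[p]) = z
  refine ⟨((p ^ w - c) * z ^ 2 * t p c ^ 4) * (-2 * x * s + y * f), ?_⟩
  linear_combination ((p ^ w - c) * z ^ 2 * t p c ^ 4) * (-2 * s * hx + f * hy)

/-- the difference for the index `b = p^(k-1) c` -/
lemma diff_top (k c : ℕ) (hk : 1 ≤ k) (hc : c ∈ Finset.Ico 1 p) (hp5 : 5 ≤ p) (h : ℤ_[p])
    (hh : S p 2 (p ^ k) = p ^ k * h) :
    ∃ g : ℤ_[p], ((T (p ^ (k + 1)) (p * (p ^ (k - 1) * c)) : ℕ) : ℤ_[p]) -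
      (T (p ^ k) (p ^ (k - 1) * c) : ℕ) =
      2 * p ^ (3 * (k + 1) + 2) * h * t p c ^ 2 + p ^ (3 * (k + 1) + 3) * g := by
  have hp0 : 0 < p := hp.out.pos
  have hcd := not_dvd_of_mem hc
  rw [Finset.mem_Ico] at hc
  have hb1 : 1 ≤ p ^ (k - 1) * c := Nat.mul_pos (Nat.pow_pos hp0) hc.1
  have hkk : p ^ k = p ^ (k - 1) * p := by
    rw [← pow_succ]; congr 1; omega
  have hlt : p ^ (k - 1) * c < p ^ k := by
    rw [hkk]; exact Nat.mul_lt_mul_of_pos_left hc.2 (Nat.pow_pos hp0)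
  have hT := T_val (p := p) (k - 1) 1 c hcd (by rw [show 1 + (k - 1) = k by omega]; exact hlt)
  rw [show 1 + (k - 1) = k by omega] at hT
  rw [T_p k (p ^ (k - 1) * c) hb1 hlt, hT]
  obtain ⟨f, hf⟩ := B_sq (p := p) (p ^ (k + 1)) (p * (p ^ (k - 1) * c) - 1)
  rw [show p * (p ^ (k - 1) * c) - 1 + 1 = p * (p ^ (k - 1) * c) by
    have := Nat.mul_pos hp0 hb1; omega] at hf
  obtain ⟨w, hw⟩ := W_sq (p := p) k (p ^ (k - 1) * c - 1) (by omega)
  rw [show p * (p ^ (k - 1) * c) = p ^ k * c by rw [hkk]; ring] at hf ⊢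
  obtain ⟨s, hs⟩ := S2_linear (p := p) k c hk hp5
  rw [hf, hs, hh, hw]
  have ht := mul_t hcd
  have e1 : (p : ℤ_[p]) ^ (3 * (k + 1) + 2) = p ^ 5 * (p ^ k) ^ 3 := by
    rw [← pow_mul, ← pow_add]; congr 1; omega
  have e2 : (p : ℤ_[p]) ^ (3 * (k + 1) + 3) = p ^ 6 * (p ^ k) ^ 3 := by
    rw [← pow_mul, ← pow_add]; congr 1; omega
  have e3 : (p : ℤ_[p]) ^ (k + 1) = p * p ^ k := by ring
  have e4 : (p : ℤ_[p]) ^ (k + 1) = p * p ^ k := by ring
  have e5 : (p : ℤ_[p]) ^ k = p * p ^ (k - 1) := by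
    rw [← pow_succ']; congr 1; omega
  rw [e1, e2]
  push_cast
  rw [e3, pow_one]
  generalize t p c = u at *
  refine ⟨-2 * c * h * u ^ 4 + (p - c) * u ^ 4 * (-2 * s) +
    (p - c) * u ^ 4 * p ^ (k - 1) * p ^ 2 * f +
    (p - c) * w * u ^ 4 * (-2 * p * c * h - 2 * p ^ 2 * s + p ^ 3 * p ^ k * f), ?_⟩
  have h6 : (c : ℤ_[p]) ^ 2 * u ^ 4 = u ^ 2 := by
    linear_combination (c * u + 1) * u ^ 2 * ht
  generalize (p : ℤ_[p]) ^ (k - 1) = q at *
  rw [e5]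
  linear_combination (2 * p ^ 5 * (p * q) ^ 3 * h) * h6

/-- the contribution of the indices divisible by `p` -/
lemma part_div (k : ℕ) (hk : 1 ≤ k) (hp5 : 5 ≤ p) :
    (p : ℤ_[p]) ^ (3 * (k + 1) + 3) ∣
      ∑ b ∈ Finset.range (p ^ k), (((T (p ^ (k + 1)) (p * b) : ℕ) : ℤ_[p]) - (T (p ^ k) b : ℕ)) := by
  have hp0 : 0 < p := hp.out.pos
  have hkk : p ^ k = p ^ (k - 1) * p := by
    rw [← pow_succ]; congr 1; omega
  obtain ⟨h, hh⟩ := dvd_S_two (p := p) k (by omega) hp5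
  have hmain : ∀ c ∈ Finset.range p, (p : ℤ_[p]) ^ (3 * (k + 1) + 3) ∣
      ∑ i ∈ Finset.range (p ^ (k - 1)), (((T (p ^ (k + 1)) (p * (i + p ^ (k - 1) * c)) : ℕ) : ℤ_[p]) -
        (T (p ^ k) (i + p ^ (k - 1) * c) : ℕ)) - 2 * p ^ (3 * (k + 1) + 2) * h * t p c ^ 2 := by
    intro c hc
    rw [Finset.mem_range] at hc
    have hne : p ^ (k - 1) ≠ 0 := pow_ne_zero _ hp0.ne'
    obtain ⟨q, hq⟩ : ∃ q, p ^ (k - 1) = q + 1 := ⟨p ^ (k - 1) - 1, by omega⟩
    rw [hq, Finset.sum_range_succ', ← hq]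
    have hrest : (p : ℤ_[p]) ^ (3 * (k + 1) + 3) ∣
        ∑ i ∈ Finset.range q, (((T (p ^ (k + 1)) (p * (i + 1 + p ^ (k - 1) * c)) : ℕ) : ℤ_[p]) -
        (T (p ^ k) (i + 1 + p ^ (k - 1) * c) : ℕ)) := by
      apply Finset.dvd_sum
      intro i hi
      rw [Finset.mem_range] at hi
      have hb0 : i + 1 + p ^ (k - 1) * c ≠ 0 := by omega
      obtain ⟨e, c', hc', hb⟩ := Nat.exists_eq_pow_mul_and_not_dvd hb0 p hp.out.ne_one
      have he : e < k - 1 := by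
        by_contra hcon
        have h1 : p ^ (k - 1) ∣ i + 1 + p ^ (k - 1) * c := by
          rw [hb]; exact dvd_mul_of_dvd_left (pow_dvd_pow p (by omega)) _
        have h2 : p ^ (k - 1) ∣ i + 1 := (Nat.dvd_add_left (dvd_mul_right _ _)).1 h1
        have := Nat.le_of_dvd (by omega) h2
        omega
      have hlt : i + 1 + p ^ (k - 1) * c < p ^ k := by
        rw [hkk]
        calc i + 1 + p ^ (k - 1) * c < p ^ (k - 1) + p ^ (k - 1) * c := by omega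
          _ = p ^ (k - 1) * (c + 1) := by ring
          _ ≤ p ^ (k - 1) * p := Nat.mul_le_mul_left _ (by omega)
      have := diff_small (p := p) e (k - e) c' (by omega) hc' (by
        rw [← hb, show k - e + e = k by omega]; exact hlt) hp5
      rw [show k - e + e = k by omega] at this
      rw [hb]
      exact this
    rw [add_sub_assoc]
    apply dvd_add hrest
    rw [zero_add]
    rcases Nat.eq_zero_or_pos c with h0 | h0
    · subst h0
      rw [mul_zero, mul_zero, t_eq_zero (dvd_zero p)]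
      simp [T]
    · obtain ⟨g, hg⟩ := diff_top (p := p) k c hk (by rw [Finset.mem_Ico]; omega) hp5 h hh
      rw [hg]
      exact ⟨g, by ring⟩
  have h1 := Finset.dvd_sum hmain
  rw [Finset.sum_sub_distrib, ← sum_range_mul' (p ^ (k - 1)) p
    (fun b => ((T (p ^ (k + 1)) (p * b) : ℕ) : ℤ_[p]) - (T (p ^ k) b : ℕ)), ← hkk] at h1
  have h2 : (p : ℤ_[p]) ^ (3 * (k + 1) + 3) ∣
      ∑ c ∈ Finset.range p, 2 * p ^ (3 * (k + 1) + 2) * h * t p c ^ 2 := by
    rw [← Finset.mul_sum]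
    have h3 := dvd_S_two (p := p) 1 (by norm_num) hp5
    rw [pow_one, pow_one] at h3
    obtain ⟨c, hc⟩ := h3
    unfold S at hc
    rw [hc]
    exact ⟨2 * h * c, by ring⟩
  exact (dvd_sub_left h2).1 h1

/-- `p^(3r+3)` divides `a(p^r) - a(p^(r-1))` for every prime `p ≥ 5` and every `r ≥ 2`. -/
theorem result : ∀ p : ℕ, p.Prime → 5 ≤ p → ∀ r : ℕ, 2 ≤ r →
    (p : ℤ) ^ (3 * r + 3) ∣ a (p ^ r) - a (p ^ (r - 1)) := by
  intro p hp hp5 r hr
  have : Fact p.Prime := ⟨hp⟩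
  have hp0 : 0 < p := hp.pos
  obtain ⟨k, rfl⟩ : ∃ k, r = k + 1 := ⟨r - 1, by omega⟩
  rw [show k + 1 - 1 = k by omega]
  rw [← PadicInt.pow_p_dvd_int_iff (p := p) (3 * (k + 1) + 3)]
  have ha : ∀ n : ℕ, n ≠ 0 → (((a n : ℤ)) : ℤ_[p]) = ∑ j ∈ Finset.range n, ((T n j : ℕ) : ℤ_[p]) := by
    intro n hn
    unfold a T
    rw [if_neg hn]
    push_cast
    rfl
  rw [Int.cast_sub, ha _ (pow_ne_zero _ hp0.ne'), ha _ (pow_ne_zero _ hp0.ne')]
  have h1 := part_prime (p := p) (k + 1) hr hp5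
  have h2 := part_div (p := p) k (by omega) hp5
  have h3 := dvd_add h1 h2
  have h4 : ∑ j ∈ Finset.range (p ^ (k + 1)), ((T (p ^ (k + 1)) j : ℕ) : ℤ_[p]) =
      (∑ j ∈ Finset.range (p ^ (k + 1)), if p ∣ j then 0 else ((T (p ^ (k + 1)) j : ℕ) : ℤ_[p])) +
      ∑ b ∈ Finset.range (p ^ k), ((T (p ^ (k + 1)) (p * b) : ℕ) : ℤ_[p]) := by
    have h5 : ∑ j ∈ Finset.range (p ^ (k + 1)), ((T (p ^ (k + 1)) j : ℕ) : ℤ_[p]) =
      (∑ j ∈ Finset.range (p ^ (k + 1)), if p ∣ j then 0 else ((T (p ^ (k + 1)) j : ℕ) : ℤ_[p])) +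
      ∑ j ∈ Finset.range (p ^ (k + 1)), if p ∣ j then ((T (p ^ (k + 1)) j : ℕ) : ℤ_[p]) else 0 := by
      rw [← Finset.sum_add_distrib]
      apply Finset.sum_congr rfl
      intro j _
      split_ifs <;> simp
    rw [h5]
    congr 1
    conv_lhs => rw [pow_succ, mul_comm, sum_range_mul']
    apply Finset.sum_congr rfl
    intro b _
    rw [Finset.sum_eq_single_of_mem 0 (Finset.mem_range.2 hp0)]
    · rw [zero_add, if_pos (dvd_mul_right _ _), pow_succ, mul_comm (p ^ k) p]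
    · intro i hi hi0
      rw [Finset.mem_range] at hi
      rw [if_neg]
      intro h
      have := (Nat.dvd_add_left (dvd_mul_right p b)).1 h
      exact absurd (Nat.le_of_dvd (by omega) this) (by omega)
  rw [Finset.sum_sub_distrib, ← add_sub_assoc, ← h4] at h3
  exact h3

end Pool.Agent.Results.MP_5eb62f_nt.PrimePowers
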